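import Pool.Agent.W516.MTR.Main

/-!
# Hoffman's conjecture and the single-valued matrix

Let `M` be a mixed Tate motive over `ℤ`, `a` a rational functional on the Betti realization and `J` a
set of basis vectors whose motivic periods along `a` are a basis over `ℚ` of all motivic periods
along `a`.  The periods of the vectors in `J` are, weight by weight, linearly independent over `ℚ` if
and only if the linear relations with rational coefficients between periods along `a` of equal
weight are stable under the single-valued matrix `p⁻¹ p̄`.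
-/

set_option autoImplicit false

namespace Pool.Agent.Results.MP_301213_nt.MotivicBases

open Matrix Pool.Agent.W516.MTZ Pool.Agent.W516.MTR

theorem result (m X : Type) [Fintype m] [DecidableEq m] [Fintype X] [DecidableEq X]
    (M : Motive m X) (p : (Matrix m m ℂ)ˣ) (hp : p ∈ M.gp)
    (hdeg : ∀ x, Odd (M.deg x) ∧ 3 ≤ M.deg x) (hinj : Function.Injective M.deg)
    (hpi : (p : Matrix m m ℂ) M.t M.t = 2 * Real.pi * Complex.I)
    (hzeta : ∀ x, (p : Matrix m m ℂ) M.o (M.s x) = riemannZeta (M.deg x))
    (a : m → ℚ) (J : Set m) (hJ : IsMotivicBasis M a J) :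
    (∀ n, LinearIndependent ℚ
      (fun j : {j : m // j ∈ J ∧ M.wt j = n} => per a (p : Matrix m m ℂ) j)) ↔
    ∀ v : m → ℂ, RowSatisfies M (per a (p : Matrix m m ℂ)) v →
      RowSatisfies M (per a (p : Matrix m m ℂ))
        (v ᵥ* (((p⁻¹ : (Matrix m m ℂ)ˣ) : Matrix m m ℂ) *
          (p : Matrix m m ℂ).map (starRingEnd ℂ))) :=
  (basis_iff hp a J hJ).trans (mot_iff hp a hdeg hinj hpi hzeta)

end Pool.Agent.Results.MP_301213_nt.MotivicBases
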